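import Pool.Agent.NA.Stmts

/-!
# NA, module ALF: the leaf step if (beta) fails
-/

set_option autoImplicit false

open Finset Filter Topology MeasureTheory

noncomputable section

namespace Pool.Agent.NA.H50

open Pool.Agent.BC Pool.Agent.NA

theorem alf (hfam : FamStmt) (hala : AlaStmt) (halc : AlcStmt) (hixl : IxlStmt) : AlfStmt := by
  intro X _ _ r hr0 hr1 hR NN δ hN ε ρ η z K V u ηs hu hε hρ hη hη1 hηs hno
  obtain ⟨hδ, hne, hconv, hball, -⟩ := id hN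
  -- the number of moves
  obtain ⟨κ, hκ⟩ : ∃ κ : ℕ, max 32 (128 / ρ) ≤ (2 : ℝ) ^ κ := by
    obtain ⟨κ, hκ⟩ := pow_unbounded_of_one_lt (max 32 (128 / ρ)) (by norm_num : (1 : ℝ) < 2)
    exact ⟨κ, hκ.le⟩
  have hn32 : (32 : ℝ) ≤ 2 ^ κ := (le_max_left _ _).trans hκ
  have hn128 : 128 / ρ ≤ (2 : ℝ) ^ κ := (le_max_right _ _).trans hκ
  have hnpos : (0 : ℝ) < 2 ^ κ := by positivity
  obtain ⟨c, hc⟩ : ∃ c : ℝ, c = 32 / 2 ^ κ := ⟨_, rfl⟩
  have hc0 : 0 < c := by rw [hc]; positivity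
  have hc1 : c ≤ 1 := by rw [hc, div_le_one hnpos]; exact hn32
  have hcρ : c ≤ ρ / 4 := by
    rw [hc, div_le_iff₀ hnpos]
    rw [div_le_iff₀ hρ] at hn128
    nlinarith
  have hnc : (2 : ℝ) ^ κ * c = 32 := by rw [hc]; field_simp
  -- the smallness parameter
  obtain ⟨μ, hμ0, hμ⟩ : ∃ μ : ℝ, 0 < μ ∧ ∀ q < 2 ^ κ, μ ≤ min (ηs q) 1 := by
    obtain ⟨q0, -, hq0⟩ := Finset.exists_min_image (range (2 ^ κ)) (fun q => min (ηs q) 1)
      ⟨0, mem_range.2 (by positivity)⟩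
    exact ⟨min (ηs q0) 1, lt_min (hηs q0) one_pos, fun q hq => hq0 q (mem_range.2 hq)⟩
  have h2δ : 0 < 1 + 2 / δ := by positivity
  obtain ⟨ζ, hζ⟩ : ∃ ζ : ℝ, ζ = min (c * r * η / 200) (μ / 2 / (1 + 2 / δ)) := ⟨_, rfl⟩
  have hζ0 : 0 < ζ := by rw [hζ]; exact lt_min (by positivity) (by positivity)
  have hζ1 : 2 * ζ ≤ c * r * η / 100 := by
    have : ζ ≤ c * r * η / 200 := by rw [hζ]; exact min_le_left _ _
    linarith
  have hζ2 : ζ * (1 + 2 / δ) ≤ μ / 2 := by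
    have : ζ ≤ μ / 2 / (1 + 2 / δ) := by rw [hζ]; exact min_le_right _ _
    rwa [le_div_iff₀ h2δ] at this
  obtain ⟨ρ', hρ'⟩ : ∃ ρ' : ℝ, ρ' = min (ρ / 2) (δ / 2) := ⟨_, rfl⟩
  have hρ'0 : 0 < ρ' := by rw [hρ']; exact lt_min (by positivity) (by positivity)
  have hρ'1 : ρ' ≤ ρ / 2 := by rw [hρ']; exact min_le_left _ _
  have hρ'2 : ρ' ≤ δ / 2 := by rw [hρ']; exact min_le_right _ _
  have hfin : FiniteDimensional ℝ (sp z K) := by
    unfold sp
    exact FiniteDimensional.span_of_finite ℝ ((Set.finite_Iio K).image z)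
  obtain ⟨s, v, Em, b, f, hE0, hF⟩ := hfam X NN δ hN u hu (sp z K) hfin (2 ^ κ) ζ ρ' hζ0 hρ'0
  obtain ⟨e, z', he, hz', hL, hsp⟩ := hala X r hr0 hr1 hR NN δ u (2 ^ κ) c ζ ρ' η s v Em b f z K
    hball (Nat.one_le_two_pow) (by push_cast; rw [hnc]) hc0 hc1 hη hη1 hζ0 hζ1 hE0 hF
  have hdis := halc X NN δ ε ζ ρ' u κ s v Em b f (sp z K) ηs hδ hζ0
    (fun q hq => ⟨hηs q, hζ2.trans (by have := hμ q hq; linarith)⟩) hE0 hF hno
  obtain ⟨-, hv, -, -, hav⟩ := hF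
  obtain ⟨k, hk⟩ : ∃ k : ℕ, k = ∑ q ∈ range (2 ^ κ), s q := ⟨_, rfl⟩
  rw [← hk] at hL hsp
  have hpk : (0 : ℝ) < 2 ^ k := by positivity
  have hk1 : 1 ≤ k := by
    by_contra hk0
    have hk0' : k = 0 := by omega
    have hs0 : s 0 = 0 := by
      have h0 : (0 : ℕ) ∈ range (2 ^ κ) := mem_range.2 (by positivity)
      have := Finset.single_le_sum (f := s) (fun i _ => Nat.zero_le _) h0
      omega
    have h1 := hav 0 (by positivity)
    rw [hs0] at h1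
    simp only [pow_zero, inv_one, range_one, sum_singleton, one_smul] at h1
    have h2 := (hv 0 (by positivity) 0 (by rw [hs0]; norm_num)).2.1
    linarith
  -- the averages of the families
  obtain ⟨am, ham⟩ : ∃ am : ℕ → X, ∀ m, am m = ((2 : ℝ) ^ s m)⁻¹ • ∑ j ∈ range (2 ^ s m), v m j :=
    ⟨_, fun m => rfl⟩
  have hDv : ∀ m j, Dv s v m j = v m j - am m := by
    intro m j; rw [ham]; rfl
  have hDsum : ∀ m, ∑ j ∈ range (2 ^ s m), Dv s v m j = 0 := by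
    intro m
    simp only [hDv, sum_sub_distrib, sum_const, card_range]
    rw [ham, ← Nat.cast_smul_eq_nsmul ℝ, smul_smul]
    push_cast
    rw [mul_inv_cancel₀ (by positivity), one_smul, sub_self]
  obtain ⟨u', hu'⟩ : ∃ u' : ℕ → X, ∀ l, u' l = (((2 ^ κ : ℕ) : ℝ))⁻¹ •
      ∑ m ∈ range (2 ^ κ), v m (ix s (2 ^ κ) m l) := ⟨_, fun l => rfl⟩
  obtain ⟨lff, hlff⟩ : ∃ lff : ℕ → X, ∀ l, lff l = lf s (2 ^ κ) c (Dv s v) e l :=
    ⟨_, fun l => rfl⟩
  simp only [← hlff] at hsp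
  obtain ⟨ub, hub⟩ : ∃ ub : X, ub = (((2 ^ κ : ℕ) : ℝ))⁻¹ • ∑ m ∈ range (2 ^ κ), am m :=
    ⟨_, rfl⟩
  have hlf' : ∀ l, lff l = u' l - ub + c • e l := by
    intro l
    rw [hlff, hu', hub, lf, ← smul_sub, ← sum_sub_distrib]
    simp only [hDv]
  obtain ⟨A, hA⟩ : ∃ A : X, A = ((2 : ℝ) ^ k)⁻¹ • ∑ l ∈ range (2 ^ k), lff l := ⟨_, rfl⟩
  rw [← hA] at hsp
  have hA' : A = c • (((2 : ℝ) ^ k)⁻¹ • ∑ l ∈ range (2 ^ k), e l) := by
    have h1 : ∑ l ∈ range (2 ^ k), ∑ m ∈ range (2 ^ κ), Dv s v m (ix s (2 ^ κ) m l) = 0 := by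
      rw [sum_comm]
      refine sum_eq_zero fun m hm => ?_
      have := (hixl s (2 ^ κ) m (mem_range.1 hm)).2 X (fun j => Dv s v m j)
      rw [← hk] at this
      rw [this, hDsum, smul_zero]
    rw [hA]
    simp only [hlff, lf]
    rw [sum_add_distrib, ← smul_sum, h1, smul_zero, zero_add, ← smul_sum, smul_comm]
  refine ⟨z', K + (2 ^ k - 1), k, fun l => V + lff l - A, u', ⟨hz', ?_, hL, hk1, ?_, ?_⟩, ?_⟩
  · have : 2 ^ 1 ≤ 2 ^ k := Nat.pow_le_pow_right (by norm_num) hk1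
    omega
  · rw [sum_sub_distrib, sum_add_distrib, sum_const, sum_const, card_range,
      ← Nat.cast_smul_eq_nsmul ℝ, ← Nat.cast_smul_eq_nsmul ℝ, hA, smul_smul]
    push_cast
    rw [mul_inv_cancel₀ (by positivity), one_smul, add_sub_cancel_right]
  · intro m hm
    refine ⟨?_, ?_⟩
    · rw [hu', smul_sum]
      refine hconv.sum_mem (fun i _ => by positivity) ?_ ?_
      · rw [sum_const, card_range, nsmul_eq_mul, mul_inv_cancel₀]
        positivity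
      · intro i hi
        exact (hv i (mem_range.1 hi) _ ((hixl s (2 ^ κ) i (mem_range.1 hi)).1 m)).1
    · have := hsp m hm
      have h2 : V + lff m - A - V = lff m - A := by abel
      rw [h2]; exact this
  · intro m hm
    refine ⟨?_, by rw [hu']; exact hdis m⟩
    have h1 : (V + lff m - A - u' m) - (V - u) = -(ub - u) + (c • e m - A) := by
      rw [hlf']; abel
    have h2 : ‖ub - u‖ ≤ ρ' := by
      have h3 : ub - u = (((2 ^ κ : ℕ) : ℝ))⁻¹ • ∑ m ∈ range (2 ^ κ), (am m - u) := by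
        rw [sum_sub_distrib, sum_const, card_range, smul_sub, ← hub, ← Nat.cast_smul_eq_nsmul ℝ,
          smul_smul, inv_mul_cancel₀ (by positivity), one_smul]
      rw [h3, norm_smul, norm_inv, Real.norm_of_nonneg (by positivity)]
      have h4 : ‖∑ m ∈ range (2 ^ κ), (am m - u)‖ ≤ ((2 ^ κ : ℕ) : ℝ) * ρ' := by
        calc ‖∑ m ∈ range (2 ^ κ), (am m - u)‖ ≤ ∑ m ∈ range (2 ^ κ), ‖am m - u‖ :=
              norm_sum_le _ _
          _ ≤ ∑ m ∈ range (2 ^ κ), ρ' := by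
              refine sum_le_sum fun i hi => ?_
              rw [ham]
              exact hav i (mem_range.1 hi)
          _ = ((2 ^ κ : ℕ) : ℝ) * ρ' := by rw [sum_const, card_range, nsmul_eq_mul]
      rw [inv_mul_le_iff₀ (by positivity)]
      exact h4
    have h5 : ‖A‖ ≤ c := by
      rw [hA', norm_smul, norm_smul, norm_inv, Real.norm_of_nonneg hc0.le,
        Real.norm_of_nonneg hpk.le]
      have h6 : ‖∑ l ∈ range (2 ^ k), e l‖ ≤ 2 ^ k := by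
        calc ‖∑ l ∈ range (2 ^ k), e l‖ ≤ ∑ l ∈ range (2 ^ k), ‖e l‖ := norm_sum_le _ _
          _ ≤ ∑ l ∈ range (2 ^ k), (1 : ℝ) := sum_le_sum fun i _ => he i
          _ = 2 ^ k := by rw [sum_const, card_range, nsmul_eq_mul]; push_cast; ring
      have h7 : ((2 : ℝ) ^ k)⁻¹ * ‖∑ l ∈ range (2 ^ k), e l‖ ≤ 1 := by
        rw [inv_mul_le_iff₀ hpk, mul_one]; exact h6
      nlinarith
    have h8 : ‖c • e m‖ ≤ c := by
      rw [norm_smul, Real.norm_of_nonneg hc0.le]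
      nlinarith [he m]
    rw [h1]
    calc ‖-(ub - u) + (c • e m - A)‖ ≤ ‖-(ub - u)‖ + ‖c • e m - A‖ := norm_add_le _ _
      _ ≤ ‖ub - u‖ + (‖c • e m‖ + ‖A‖) := by
          rw [norm_neg]; gcongr; exact norm_sub_le _ _
      _ ≤ ρ := by linarith

end Pool.Agent.NA.H50
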