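import Pool.Agent.NL.StmtsM

/-!
# NA: from the failure of `TT` to a subset of the unit interval
-/

set_option autoImplicit false

open MeasureTheory Filter Topology Set

noncomputable section

namespace Pool.Agent.NA.H50

open Pool.Agent.NL

theorem adp {X : Type} [NormedAddCommGroup X] [NormedSpace ℝ X] (f : ℝ → X)
    (F : ℕ → StrongDual ℝ X) (G : ℝ → Z) (Ψ : X →ₗᵢ[ℝ] Z) (hC : Crv f F G Ψ)
    (hd : ∀ᵐ w, ∀ k, HasDerivAt (fun t => F k (f t)) (G w k) w) (hT : ¬ TT G Ψ) :
    ∃ (g : ℝ → X) (V : Set ℝ) (e : ℝ), LipschitzWith 1 g ∧ MeasurableSet V ∧ V ⊆ Ioo 0 1 ∧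
      volume V ≠ 0 ∧ 0 < e ∧ ∀ (m : ℕ) (p : Fin m → ℝ), (∀ i, 0 ≤ p i) → ∑ i, p i = 1 →
        ∀ᵐ x : Fin m → ℝ, (∀ i, x i ∈ V) → ∀ y : X, ∃ k : ℕ,
          e ≤ |∑ i, p i * deriv (fun t => F k (g t)) (x i) - F k y| := by
  unfold TT at hT
  push Not at hT
  obtain ⟨S, hS, hS0, e, he, hm⟩ := hT
  -- a unit interval
  obtain ⟨n, hn⟩ : ∃ n : ℤ, volume (S ∩ Ioo (n : ℝ) (n + 1)) ≠ 0 := by
    by_contra hcon
    push Not at hcon
    apply hS0
    have hcov : S ⊆ (⋃ n : ℤ, S ∩ Ioo (n : ℝ) (n + 1)) ∪ ⋃ n : ℤ, {(n : ℝ)} := by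
      intro t ht
      by_cases h : (⌊t⌋ : ℝ) = t
      · right
        exact mem_iUnion.2 ⟨⌊t⌋, h.symm⟩
      · left
        refine mem_iUnion.2 ⟨⌊t⌋, ht, lt_of_le_of_ne (Int.floor_le t) h, Int.lt_floor_add_one t⟩
    refine measure_mono_null hcov ?_
    rw [measure_union_null_iff]
    exact ⟨measure_iUnion_null hcon, measure_iUnion_null fun n => by simp⟩
  refine ⟨fun t => f (t + n), (fun t : ℝ => t + n) ⁻¹' S ∩ Ioo 0 1, e / 2, ?_, ?_, ?_, ?_,
    by positivity, ?_⟩
  · refine LipschitzWith.of_dist_le_mul fun x y => ?_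
    have := hC.lip.dist_le_mul (x + n) (y + n)
    rwa [dist_add_right] at this
  · exact ((measurable_id.add_const _) hS).inter measurableSet_Ioo
  · exact inter_subset_right
  · intro h0
    apply hn
    have h1 : (fun t : ℝ => t + n) ⁻¹' S ∩ Ioo 0 1 =
        (fun t : ℝ => t + n) ⁻¹' (S ∩ Ioo (n : ℝ) (n + 1)) := by
      ext t
      simp only [mem_inter_iff, mem_preimage, mem_Ioo]
      constructor
      · rintro ⟨h1, h2, h3⟩
        exact ⟨h1, by linarith, by linarith⟩
      · rintro ⟨h1, h2, h3⟩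
        exact ⟨h1, by linarith, by linarith⟩
    rw [h1, (measurePreserving_add_right volume (n : ℝ)).measure_preimage
      (hS.inter measurableSet_Ioo).nullMeasurableSet] at h0
    exact h0
  · intro m p hp hp1
    have h1 : ∀ᵐ x : Fin m → ℝ, (∀ i, x i + (n : ℝ) ∈ S) →
        ∀ p : Fin m → ℝ, (∀ i, 0 ≤ p i) → ∑ i, p i = 1 →
          e ≤ rho Ψ (∑ i, p i • G (x i + (n : ℝ))) :=
      (measurePreserving_add_right (volume : Measure (Fin m → ℝ))
        (fun _ => (n : ℝ))).quasiMeasurePreserving.ae (hm m)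
    have h2 : ∀ᵐ x : ℝ, ∀ k, HasDerivAt (fun t => F k (f t)) (G (x + n) k) (x + n) :=
      (measurePreserving_add_right volume (n : ℝ)).quasiMeasurePreserving.ae hd
    have h3 : ∀ᵐ x : Fin m → ℝ, ∀ i, ∀ k,
        HasDerivAt (fun t => F k (f t)) (G (x i + n) k) (x i + n) := by
      rw [ae_all_iff]
      intro i
      exact (Measure.quasiMeasurePreserving_eval (fun _ : Fin m => (volume : Measure ℝ)) i).ae h2
    filter_upwards [h1, h3] with x hx1 hx3 hxV y
    have h4 : e ≤ rho Ψ (∑ i, p i • G (x i + n)) := by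
      have := hx1 (fun i => (hxV i).1) p hp hp1
      simpa using this
    have h5 : e ≤ ‖∑ i, p i • G (x i + n) - Ψ y‖ := by
      refine h4.trans ?_
      unfold rho
      rw [← dist_eq_norm]
      exact Metric.infDist_le_dist_of_mem (mem_range_self y)
    by_contra hcon
    push Not at hcon
    have h6 : ‖∑ i, p i • G (x i + n) - Ψ y‖ ≤ e / 2 := by
      rw [BoundedContinuousFunction.norm_le (by positivity)]
      intro k
      have h7 : (∑ i, p i • G (x i + n) - Ψ y) k =
          ∑ i, p i * deriv (fun t => F k (f (t + n))) (x i) - F k y := by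
        rw [BoundedContinuousFunction.sub_apply, hC.psi]
        congr 1
        rw [BoundedContinuousFunction.sum_apply]
        refine Finset.sum_congr rfl fun i _ => ?_
        rw [BoundedContinuousFunction.smul_apply, smul_eq_mul]
        congr 1
        have h8 := (hx3 i k).comp_add_const (x i) (n : ℝ)
        exact h8.deriv.symm
      rw [h7, Real.norm_eq_abs]
      exact (hcon k).le
    linarith

end Pool.Agent.NA.H50
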