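import Pool.Agent.NA.Stmts

/-!
# NA: scaling of the curve
-/

set_option autoImplicit false

open Finset Filter Topology MeasureTheory

noncomputable section

namespace Pool.Agent.NA.H50

theorem scale {X : Type} [NormedAddCommGroup X] [NormedSpace ℝ X] (f : ℝ → X) (K : NNReal)
    (hf : LipschitzWith K f) (hn : ¬ ∀ᵐ t : ℝ, DifferentiableAt ℝ f t) :
    ∃ g : ℝ → X, LipschitzWith 1 g ∧ ¬ ∀ᵐ t : ℝ, DifferentiableAt ℝ g t := by
  have hK : (0 : ℝ) < (K : ℝ) + 1 := by positivity
  refine ⟨fun t => ((K : ℝ) + 1)⁻¹ • f t, ?_, ?_⟩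
  · refine LipschitzWith.of_dist_le_mul fun x y => ?_
    rw [dist_eq_norm, ← smul_sub, norm_smul, norm_inv, Real.norm_of_nonneg hK.le, ← dist_eq_norm,
      inv_mul_le_iff₀ hK, NNReal.coe_one, one_mul]
    refine (hf.dist_le_mul x y).trans ?_
    have := dist_nonneg (x := x) (y := y)
    nlinarith
  · intro h
    refine hn (h.mono fun t ht => ?_)
    have := ht.const_smul ((K : ℝ) + 1)
    refine this.congr_of_eventuallyEq (Eventually.of_forall fun s => ?_)
    simp only [Pi.smul_apply]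
    rw [smul_smul, mul_inv_cancel₀ hK.ne', one_smul]

end Pool.Agent.NA.H50
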