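import Pool.Agent.Helper50_NAL.Main
import Pool.Agent.Helper50_NAL.Scale
import Pool.Agent.Helper70_NAL.NZ
import Pool.Agent.Helper65_NE.All
import Pool.Agent.NL.AllA
import Pool.Agent.NL.Asm

/-!
# MP_d20576_an: every separable Banach space which fails the Radon Nikodym property has a closed
subspace with a Schauder basis which fails it
-/

set_option autoImplicit false

noncomputable section

namespace Pool.Agent.NA.H50

open Filter Topology

/-- The theorem. The three cases: `TT` with the machines of the cases BETA and ALPHA and the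
engine; not `TT` with the sets `N0`. -/
theorem final (X : Type) [NormedAddCommGroup X] [NormedSpace ℝ X] [CompleteSpace X]
    [TopologicalSpace.SeparableSpace X]
    (h : ∃ f : ℝ → X, (∃ K : NNReal, LipschitzWith K f) ∧
        ¬ (∀ᵐ t ∂MeasureTheory.volume, DifferentiableAt ℝ f t)) : NA.Yes X := by
  obtain ⟨f₀, ⟨K, hK⟩, hn₀⟩ := h
  obtain ⟨f, hf, hn⟩ := scale f₀ K hK hn₀
  obtain ⟨F, G, Ψ, hC, -⟩ := NL.All.set X f hf
  by_cases hT : NL.TT G Ψ
  · exact NL.nlc NL.All.dic NL.All.bma NL.All.ama NE.H65.enaA X f F G Ψ hC hn hT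
  · obtain ⟨NN, δ, r, hr, hr1, hN, hR⟩ := NA.H70.nz NL.All.goo NL.All.rem NL.All.nrm hC hT
    exact trnA X r hr hr1 hR NN δ hN

end Pool.Agent.NA.H50
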