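import Pool.Agent.Helper52_NA.LNC
import Pool.Agent.Helper99_NA.LNI
import Pool.Agent.Helper28_NA.TRA
import Pool.Agent.Helper40_NA.TRE
import Pool.Agent.Helper39_NAL.FNA
import Pool.Agent.Helper39_NAL.NRM
import Pool.Agent.Helper83_NA.FAM
import Pool.Agent.Helper87_NAL.HAA
import Pool.Agent.Helper87_NAL.QAC
import Pool.Agent.Helper87_NAL.IXL
import Pool.Agent.Helper83_NA.BLK
import Pool.Agent.Helper26_NAL.QAA
import Pool.Agent.Helper91_NAL.SWA
import Pool.Agent.Helper81_NAL.SWB
import Pool.Agent.Helper49_NAL.BLF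
import Pool.Agent.Helper62_NAL.ALA
import Pool.Agent.Helper50_NAL.ALF
import Pool.Agent.Helper29_NAL.GEP
import Pool.Agent.Helper1_NAL.GEN
import Pool.Agent.Helper1_NAL.BRN
import Pool.Agent.Helper15_NAL.TRN
import Pool.Agent.Helper77_BC.Sch
import Pool.Agent.Helper51_NAL.SGP
import Pool.Agent.Helper33_NAL.ALC
import Pool.Agent.Helper33_NAL.CVX

/-!
# NAL: the not alpha side, assembled
-/

set_option autoImplicit false

noncomputable section

namespace Pool.Agent.NA.H50

open Pool.Agent.BC Pool.Agent.NA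

/-- The not alpha side, from the two rows CVX and ALC. -/
theorem trnOf (cvx : CvxStmt) (alc : AlcStmt) : TrnStmt := by
  have lnc : LncStmt := H52.lnc
  have lni : LniStmt := H99.lni lnc
  have tre : TreStmt := H40.tre H28.tra
  have fna : FnaStmt := H39.fna tre Pool.Agent.BC.H77.sch
  have fam : FamStmt := H83.fam H39.nrm cvx
  have blk : BlkStmt := H83.blk H87.haa lnc
  have qaa : QaaStmt := H26.qaa
  have swa : SwaStmt := H91.swa
  have swb : SwbStmt := H81.swb swa qaa H87.qac
  have ala : AlaStmt := H62.ala swa swb blk qaa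
  have alf : AlfStmt := H50.alf fam ala alc H87.ixl
  have blf : BlfStmt := H49.blf lnc
  have lef : LefStmt := H49.lef blf alf
  have gep : GepStmt := H29.gep lef lnc
  have gen : GenStmt := H1.gen gep
  exact H15.trn gen lni fna H1.brn lnc

/-- The not alpha side. -/
theorem trnA : TrnStmt := trnOf H33.cvx (H33.alc H51.sgp)

end Pool.Agent.NA.H50
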